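import Pool.Agent.Helper44q.S.Act

/-! Dominating sprays move all divisors. -/

set_option autoImplicit false
set_option linter.unusedSectionVars false

namespace Pool.Agent.Helper44q.S

open Polynomial FF Pool.Agent.R70.HC

section abstract_tangent

variable {k R κ : Type} [Field k] [CommRing R] [IsDomain R] [Algebra k R] [Field κ] [Algebra k κ]

/-- a tangent vector which is transversal to the divisor `π = 0` -/
theorem exists_tangent_aux [Algebra.FormallySmooth k κ] (r : R →ₐ[k] κ)
    (hr : Function.Surjective r) (π : R) (hπ : π ≠ 0) (hker : ∀ a, r a = 0 ↔ π ∣ a) :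
    ∃ v : R → κ, (∀ a b, v (a + b) = v a + v b) ∧ (∀ a b, v (a * b) = r a * v b + r b * v a) ∧
      (∀ c : k, v (algebraMap k R c) = 0) ∧ v π = 1 := by
  let I : Ideal R := Ideal.span {π ^ 2}
  have hI : ∀ a ∈ I, r a = 0 := by
    intro a ha
    rw [hker]
    exact (Dvd.intro_left π (by ring : π * π = π ^ 2)).trans (Ideal.mem_span_singleton.1 ha)
  let g : (R ⧸ I) →ₐ[k] κ := Ideal.Quotient.liftₐ I r hI
  have hg : ∀ a, g (Ideal.Quotient.mk I a) = r a := fun a => rfl
  have hgs : Function.Surjective g := by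
    intro c
    obtain ⟨a, rfl⟩ := hr c
    exact ⟨Ideal.Quotient.mk I a, hg a⟩
  have hzero : ∀ c d, Ideal.Quotient.mk I (π * c) * Ideal.Quotient.mk I (π * d) = 0 := by
    intro c d
    rw [← map_mul, Ideal.Quotient.eq_zero_iff_mem, Ideal.mem_span_singleton]
    exact ⟨c * d, by ring⟩
  have hmem : ∀ y : R ⧸ I, g y = 0 → ∃ c, y = Ideal.Quotient.mk I (π * c) := by
    intro y hy
    obtain ⟨a, rfl⟩ := Ideal.Quotient.mk_surjective y
    rw [hg, hker] at hy
    obtain ⟨c, rfl⟩ := hy
    exact ⟨c, rfl⟩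
  have hnil : IsNilpotent (RingHom.ker (g : (R ⧸ I) →+* κ)) := by
    refine ⟨2, ?_⟩
    rw [pow_two, Ideal.zero_eq_bot, eq_bot_iff, Ideal.mul_le]
    intro x hx y hy
    obtain ⟨c, rfl⟩ := hmem x hx
    obtain ⟨d, rfl⟩ := hmem y hy
    rw [hzero]
    exact Ideal.zero_mem _
  let σ : κ →ₐ[k] (R ⧸ I) := Algebra.FormallySmooth.liftOfSurjective (AlgHom.id k κ) g hgs hnil
  have hσ : ∀ c, g (σ c) = c := fun c =>
    Algebra.FormallySmooth.liftOfSurjective_apply (AlgHom.id k κ) g hgs hnil c
  have hc : ∀ a, ∃ c, Ideal.Quotient.mk I a - σ (r a) = Ideal.Quotient.mk I (π * c) := by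
    intro a
    refine hmem _ ?_
    rw [map_sub, hg, hσ, sub_self]
  choose c hc using hc
  have huniq : ∀ x y, Ideal.Quotient.mk I (π * x) = Ideal.Quotient.mk I (π * y) → r x = r y := by
    intro x y h
    rw [Ideal.Quotient.eq, Ideal.mem_span_singleton, ← mul_sub, pow_two] at h
    have h1 := (mul_dvd_mul_iff_left hπ).1 h
    rw [← sub_eq_zero, ← map_sub, hker]
    exact h1
  refine ⟨fun a => r (c a), fun a b => ?_, fun a b => ?_, fun d => ?_, ?_⟩
  · rw [← map_add]
    apply huniq
    rw [← hc, mul_add, map_add (Ideal.Quotient.mk I) (π * c a), ← hc, ← hc, map_add r, map_add σ,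
      map_add]
    ring
  · rw [← map_mul, ← map_mul, ← map_add]
    apply huniq
    have e1 : Ideal.Quotient.mk I (π * c (a * b)) =
        Ideal.Quotient.mk I a * Ideal.Quotient.mk I (π * c b) +
          σ (r b) * Ideal.Quotient.mk I (π * c a) := by
      rw [← hc, ← hc, ← hc, map_mul r, map_mul σ, map_mul]
      ring
    have e2 : σ (r b) * Ideal.Quotient.mk I (π * c a) =
        Ideal.Quotient.mk I b * Ideal.Quotient.mk I (π * c a) := by
      have h1 : σ (r b) = Ideal.Quotient.mk I b - Ideal.Quotient.mk I (π * c b) := by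
        rw [← hc]; ring
      rw [h1, sub_mul, hzero, sub_zero]
    rw [e1, e2, ← map_mul, ← map_mul, ← map_add]
    congr 1
    ring
  · have h1 : Ideal.Quotient.mk I (algebraMap k R d) - σ (r (algebraMap k R d)) = 0 := by
      rw [r.commutes, σ.commutes]
      exact sub_self _
    have h2 := huniq (c (algebraMap k R d)) 0 (by rw [← hc, h1, mul_zero, map_zero])
    change r (c _) = 0
    rw [h2, map_zero]
  · have h0 : r π = 0 := (hker π).2 dvd_rfl
    have h2 := huniq (c π) 1 (by rw [← hc, h0, map_zero, sub_zero, mul_one])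
    change r (c _) = 1
    rw [h2, map_one]

end abstract_tangent

theorem formallySmooth (k κ : Type) [Field k] [CharZero k] [Field κ] [Algebra k κ] :
    Algebra.FormallySmooth k κ := by
  obtain ⟨s, hs⟩ := exists_isTranscendenceBasis k κ
  have h1 : Algebra.IsAlgebraic (IntermediateField.adjoin k (Set.range ((↑) : s → κ))) κ := by
    exact hs.isAlgebraic_field
  have h2 : CharZero (IntermediateField.adjoin k (Set.range ((↑) : s → κ))) :=
    charZero_of_injective_algebraMap
      (algebraMap k (IntermediateField.adjoin k (Set.range ((↑) : s → κ)))).injective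
  exact .of_algebraicIndependent_of_isSeparable hs.1

section

variable {k K : Type} [Field k] [Field K] [Algebra k K]

/-- the ring of the divisor -/
def ringOf (P : Place k K) : Subalgebra k K where
  carrier := {f | P.Reg f}
  mul_mem' := P.reg_mul
  add_mem' := P.reg_add
  algebraMap_mem' := P.reg_const

end

/-- `v` is a tangent vector at the point `r` -/
def IsTangent (k : Type) {B κ : Type} [Field k] [CommRing B] [Algebra k B] [Field κ] (r : B →+* κ)
    (v : B → κ) : Prop :=
  (∀ a b, v (a + b) = v a + v b) ∧ (∀ a b, v (a * b) = r a * v b + r b * v a) ∧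
    ∀ c : k, v (algebraMap k B c) = 0

/-- There is a polynomial spray whose velocity vectors at the general point of the closed set with the
ideal `I` span the space of all tangent vectors at this point. -/
def MovedByDominatingSpray (k : Type) {B : Type} [Field k] [CommRing B] [Algebra k B] (I : Set B) :
    Prop :=
  ∃ (N : ℕ) (φ : B →ₐ[k] MvPolynomial (Fin N) B) (κ : Type) (_ : Field κ) (r : B →+* κ),
    (∀ b, MvPolynomial.constantCoeff (φ b) = b) ∧ (∀ b, r b = 0 ↔ b ∈ I) ∧
    (∀ z : κ, ∃ b c : B, r c ≠ 0 ∧ z * r c = r b) ∧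
    ∀ v : B → κ, IsTangent k r v → ∃ c : Fin N → κ, ∀ b,
      v b = ∑ i, c i * r ((φ b).coeff (Finsupp.single i 1))

section

variable {k K : Type} [Field k] [Field K] [Algebra k K]

/-- the reduction at the general point of the divisor -/
theorem exists_red {P : Place k K} {B : Subalgebra k K} {I : Set B} (hB : Chart B P)
    (hI : IsIdealOf I P) {κ : Type} [Field κ] [Algebra k κ] (r : B →ₐ[k] κ)
    (hr : ∀ b, r b = 0 ↔ b ∈ I) (hs : ∀ z : κ, ∃ b c : B, r c ≠ 0 ∧ z * r c = r b) :
    ∃ r' : ringOf P →ₐ[k] κ, Function.Surjective r' ∧ (∀ b : B, r' ⟨b, hB.1 _ b.2⟩ = r b) ∧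
      ∀ f : ringOf P, r' f = 0 ↔ (f : K) = 0 ∨ 0 < P.ord f := by
  have hne : ∀ d : B, r d ≠ 0 → (d : K) ≠ 0 ∧ P.ord d = 0 := fun d hd =>
    hI.notMem hB fun h => hd ((hr d).2 h)
  have hfrac : ∀ f : ringOf P, ∃ b d : B, r d ≠ 0 ∧ (f : K) * d = b := by
    intro f
    obtain ⟨b, hb, d, hd, hd0, hd', he⟩ := hB.2 f f.2
    refine ⟨⟨b, hb⟩, ⟨d, hd⟩, ?_, he⟩
    rw [Ne, hr, hI, not_or]
    refine ⟨hd0, ?_⟩
    change ¬ 0 < P.ord d
    omega
  choose b d hd hbd using hfrac
  have key : ∀ (f : ringOf P) (c e : B), r e ≠ 0 → (f : K) * e = c → r (b f) / r (d f) = r c / r e := by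
    intro f c e he hec
    have h1 : b f * e = c * d f := by
      apply Subtype.ext
      change (b f : K) * e = c * d f
      rw [← hec, ← hbd]
      ring
    rw [div_eq_div_iff (hd f) he, ← map_mul, h1, map_mul]
  have hone : r 1 ≠ 0 := by rw [map_one]; exact one_ne_zero
  let r' : ringOf P →ₐ[k] κ :=
    { toFun := fun f => r (b f) / r (d f)
      map_one' := by
        rw [key 1 1 1 hone (mul_one _), map_one, div_one]
      map_zero' := by
        rw [key 0 0 1 hone (by rw [ZeroMemClass.coe_zero, zero_mul]; rfl), map_zero, zero_div]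
      map_mul' := fun f g => by
        rw [key (f * g) (b f * b g) (d f * d g) (by rw [map_mul]; exact mul_ne_zero (hd f) (hd g))
          (by
            change (f : K) * g * (d f * d g) = b f * b g
            rw [← hbd, ← hbd]; ring), map_mul, map_mul, mul_div_mul_comm]
      map_add' := fun f g => by
        rw [key (f + g) (b f * d g + d f * b g) (d f * d g)
          (by rw [map_mul]; exact mul_ne_zero (hd f) (hd g))
          (by
            change ((f : K) + g) * (d f * d g) = b f * d g + d f * b g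
            rw [← hbd, ← hbd]; ring), map_add, map_mul, map_mul, map_mul,
          div_add_div _ _ (hd f) (hd g)]
      commutes' := fun c => by
        rw [key (algebraMap k _ c) (algebraMap k B c) 1 hone (mul_one _), map_one, div_one,
          r.commutes] }
  have hr' : ∀ f, r' f = r (b f) / r (d f) := fun f => rfl
  refine ⟨r', fun z => ?_, fun c => ?_, fun f => ?_⟩
  · obtain ⟨c, e, he, hce⟩ := hs z
    have h1 := hne e he
    have h2 : P.Reg ((c : K) / e) := by
      rcases eq_or_ne (c : K) 0 with h | h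
      · rw [h, zero_div]; exact P.reg_zero
      · right
        rw [P.ord_div h h1.1, h1.2]
        have := (P.reg_iff h).1 (hB.1 _ c.2)
        omega
    refine ⟨⟨_, h2⟩, ?_⟩
    rw [hr', key ⟨_, h2⟩ c e he (div_mul_cancel₀ _ h1.1), ← hce, mul_div_cancel_right₀ _ he]
  · rw [hr', key ⟨c, hB.1 _ c.2⟩ c 1 hone (mul_one _), map_one, div_one]
  · rw [hr', div_eq_zero_iff, or_iff_left (hd f), hr, hI, ← hbd]
    have h1 := hne _ (hd f)
    rcases eq_or_ne (f : K) 0 with h | h
    · rw [h, zero_mul]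
    · rw [P.ord_mul h h1.1, h1.2, add_zero, mul_eq_zero, or_iff_left h1.1]

theorem MovedByDominatingSpray.spray [CharZero k] {P : Place k K} {B : Subalgebra k K} {I : Set B}
    (hB : Chart B P) (hI : IsIdealOf I P) (h : MovedByDominatingSpray k I) : MovedBySpray k I := by
  obtain ⟨N, φ, κ, _, r, h0, hr, hs, hdom⟩ := h
  obtain ⟨π, hπ, hπ'⟩ := P.surj
  have hπr : P.Reg π := Or.inr (by omega)
  let _ : Algebra k κ := (r.comp (algebraMap k B)).toAlgebra
  have hsm : Algebra.FormallySmooth k κ := formallySmooth k κ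
  let rA : B →ₐ[k] κ := { r with commutes' := fun _ => rfl }
  obtain ⟨r', hs', hrB, hker⟩ := exists_red hB hI rA hr hs
  obtain ⟨v, hv1, hv2, hv3, hv4⟩ := exists_tangent_aux r' hs' (⟨π, hπr⟩ : ringOf P)
    (fun h => hπ (congrArg Subtype.val h)) (by
      rintro ⟨a, ha⟩
      rw [hker]
      constructor
      · rintro (h | h)
        · exact ⟨0, Subtype.ext (h.trans (mul_zero π).symm)⟩
        · change 0 < P.ord a at h
          have ha0 : a ≠ 0 := by rintro rfl; rw [P.ord_zero] at h; omega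
          refine ⟨⟨a / π, Or.inr ?_⟩, Subtype.ext ?_⟩
          · rw [P.ord_div ha0 hπ]; omega
          · exact (mul_div_cancel₀ a hπ).symm
      · rintro ⟨⟨c, hc⟩, hac⟩
        have h2 : a = π * c := congrArg Subtype.val hac
        change a = 0 ∨ 0 < P.ord a
        rcases eq_or_ne c 0 with rfl | hc0
        · left; rw [h2, mul_zero]
        · right
          rw [h2, P.ord_mul hπ hc0]
          have := (P.reg_iff hc0).1 hc
          omega)
  -- restriction to `B`
  let w : B → κ := fun b => v ⟨b, hB.1 _ b.2⟩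
  have hw : IsTangent k r w := ⟨fun a b => hv1 ⟨a, hB.1 _ a.2⟩ ⟨b, hB.1 _ b.2⟩,
    fun a b => by
      have h1 := hv2 ⟨a, hB.1 _ a.2⟩ ⟨b, hB.1 _ b.2⟩
      rw [hrB, hrB] at h1
      exact h1, fun c => hv3 c⟩
  obtain ⟨c, hc⟩ := hdom w hw
  obtain ⟨b, hb, d, hd, hd0, hd', he⟩ := hB.2 π hπr
  have hb0 : b ≠ 0 := by rw [← he]; exact mul_ne_zero hπ hd0
  have hbo : P.ord b = 1 := by rw [← he, P.ord_mul hπ hd0, hπ', hd', add_zero]
  have hwb : w ⟨b, hb⟩ ≠ 0 := by
    have h0' : (⟨b, hB.1 _ hb⟩ : ringOf P) = ⟨π, hπr⟩ * ⟨d, hB.1 _ hd⟩ := Subtype.ext he.symm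
    have h1 : w ⟨b, hb⟩ = v (⟨π, hπr⟩ * ⟨d, hB.1 _ hd⟩) := congrArg v h0'
    have h2 : r' ⟨π, hπr⟩ = 0 := (hker _).2 (Or.inr (by change 0 < P.ord π; omega))
    have h3 : r' ⟨d, hB.1 _ hd⟩ ≠ 0 := by
      rw [Ne, hker, not_or]
      exact ⟨hd0, by change ¬ 0 < P.ord d; omega⟩
    rw [h1, hv2, hv4, h2, zero_mul, zero_add, mul_one]
    exact h3
  rw [hc] at hwb
  obtain ⟨i, -, hi⟩ := Finset.exists_ne_zero_of_sum_ne_zero hwb
  have hi' := right_ne_zero_of_mul hi
  refine ⟨N, φ, h0, ⟨b, hb⟩, ?_, i, fun h => hi' ((hr _).2 h)⟩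
  rw [hI]
  right
  change 0 < P.ord b
  omega

end

end Pool.Agent.Helper44q.S
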