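import Pool.Agent.Helper44q.S.Sub
import Pool.Agent.Helper44q.S.Tan
import Pool.Agent.Helper44q.Q.Reg2
import Pool.Agent.Helper44q.Q.Lin

/-! Unirational varieties have dense rational points. -/

set_option autoImplicit false
set_option linter.unusedSectionVars false

namespace Pool.Agent.Helper44q.S

open AlgebraicGeometry CategoryTheory W560.HP
open Pool.Agent.Y742.HC (DensePoints)
open Pool.Agent.Helper44q.Q

theorem dense_of_embed (k : Type) [Field k] [CharZero k] (hk : HilbNR k) (K : Type) [Field K]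
    [Algebra k K] {n : ℕ} (ι : K →ₐ[k] Rat' k n) (X : Scheme.{0})
    (f : X ⟶ Spec (CommRingCat.of k)) [IsIntegral X] [LocallyOfFiniteType f]
    (e : X.functionField ≃+* K) (he : ∀ a : k, e (toFF k X f a) = algebraMap k K a) :
    DensePoints k X f := by
  classical
  rw [DensePoints, dense_iff_inter_open]
  rintro W hW ⟨w, hw⟩
  obtain ⟨U, hU, hwU, hUW⟩ := exists_isAffineOpen_mem_and_subset (X := X) (x := w)
    (U := ⟨W, hW⟩) hw
  have hneU : Nonempty U := ⟨⟨w, hwU⟩⟩
  have htop : U ≤ f ⁻¹ᵁ ⊤ := le_top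
  let ι0 : k →+* Γ(X, U) := (f.appLE ⊤ U htop).hom.comp
    (Scheme.ΓSpecIso (CommRingCat.of k)).inv.hom
  let _ : Algebra k Γ(X, U) := ι0.toAlgebra
  have hft : ι0.FiniteType := by
    have h1 : (f.appLE ⊤ U htop).hom.FiniteType :=
      f.finiteType_appLE (isAffineOpen_top _) hU htop
    refine h1.comp (RingHom.FiniteType.of_surjective _ ?_)
    exact (ConcreteCategory.bijective_of_isIso (Scheme.ΓSpecIso (CommRingCat.of k)).inv).2
  have : Algebra.FiniteType k Γ(X, U) := hft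
  let ψ0 : Γ(X, U) →+* K := (e : X.functionField →+* K).comp
    (algebraMap Γ(X, U) X.functionField)
  have hψ0 : ∀ a : k, ψ0 (ι0 a) = algebraMap k K a := by
    intro a
    rw [← he a]
    refine congrArg e ?_
    have hg := (genericPoint_spec X).mem_open_set_iff U.isOpen
    exact X.presheaf.germ_res_apply (homOfLE (le_top : U ≤ ⊤)) (genericPoint X)
      (hg.mpr (by simpa using hneU))
      (f.appTop.hom ((Scheme.ΓSpecIso (CommRingCat.of k)).inv.hom a))
  let ψ : Γ(X, U) →ₐ[k] K := { ψ0 with commutes' := hψ0 }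
  obtain ⟨S, hS⟩ := Algebra.FiniteType.out (R := k) (A := Γ(X, U))
  obtain ⟨B, φ, -, hSB, -, -⟩ := hpf_restrict ι (hpf_rat k hk n) 0 (fun i => i.elim0)
    (fun i => i.elim0) (S.image ψ)
  have hB : ∀ a : Γ(X, U), ψ a ∈ B := by
    intro a
    have ha : a ∈ Algebra.adjoin k (S : Set Γ(X, U)) := by rw [hS]; trivial
    have h1 : Algebra.adjoin k (S : Set Γ(X, U)) ≤ B.comap ψ := by
      rw [Algebra.adjoin_le_iff]
      intro s hs
      exact hSB (by rw [Finset.coe_image]; exact ⟨s, hs, rfl⟩)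
    exact h1 ha
  let x : Γ(X, U) →ₐ[k] k := φ.comp (ψ.codRestrict B hB)
  let xc : Γ(X, U) ⟶ CommRingCat.of k := CommRingCat.ofHom (x : Γ(X, U) →+* k)
  obtain ⟨p⟩ : Nonempty (Spec (CommRingCat.of k)) := inferInstance
  have hs : (Spec.map xc ≫ hU.fromSpec) p ∈ U := by
    have h1 : Set.range hU.fromSpec = (U : Set X) := hU.range_fromSpec
    have h2 : hU.fromSpec (Spec.map xc p) ∈ (U : Set X) := by
      rw [← h1]
      exact ⟨_, rfl⟩
    rwa [Scheme.Hom.comp_apply]
  refine ⟨(Spec.map xc ≫ hU.fromSpec) p, hUW hs, Spec.map xc ≫ hU.fromSpec, ?_, ⟨p, rfl⟩⟩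
  rw [Category.assoc, ← IsAffineOpen.SpecMap_appLE_fromSpec f (isAffineOpen_top _) hU htop,
    IsAffineOpen.fromSpec_top, Scheme.isoSpec_Spec_inv, ← Spec.map_comp, ← Spec.map_comp]
  have h1 : ((Scheme.ΓSpecIso (CommRingCat.of k)).inv ≫ f.appLE ⊤ U htop) ≫ xc = 𝟙 _ := by
    ext a
    exact x.commutes a
  rw [h1, Spec.map_id]

end Pool.Agent.Helper44q.S
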