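import Mathlib

/-! The action of the additive group given by a locally nilpotent derivation. -/

set_option autoImplicit false
set_option linter.unusedSectionVars false

namespace Pool.Agent.Helper44q.S

open Polynomial

variable {k B : Type} [Field k] [CharZero k] [CommRing B] [Algebra k B]

/-- the differential equation of the exponential map -/
def Sol (D : Derivation k B B) (f : B[X]) : Prop :=
  ∀ n : ℕ, ((n : k) + 1) • f.coeff (n + 1) = D (f.coeff n)

theorem Sol.ext {D : Derivation k B B} {f g : B[X]} (hf : Sol D f) (hg : Sol D g)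
    (h : f.coeff 0 = g.coeff 0) : f = g := by
  ext n
  induction n with
  | zero => exact h
  | succ n ih =>
    have h1 := hf n
    rw [ih, ← hg n] at h1
    have h2 : ((n : k) + 1) ≠ 0 := Nat.cast_add_one_ne_zero n
    have h3 := congrArg (fun z => ((n : k) + 1)⁻¹ • z) h1
    simpa [smul_smul, inv_mul_cancel₀ h2] using h3

theorem Sol.deriv {D : Derivation k B B} {f : B[X]} (hf : Sol D f) (n : ℕ) :
    (derivative f).coeff n = D (f.coeff n) := by
  rw [coeff_derivative, ← hf n, Algebra.smul_def, map_add, map_natCast, map_one, mul_comm]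

theorem Sol.mul {D : Derivation k B B} {f g : B[X]} (hf : Sol D f) (hg : Sol D g) :
    Sol D (f * g) := by
  intro n
  have h1 : ((n : k) + 1) • (f * g).coeff (n + 1) = (derivative (f * g)).coeff n := by
    rw [coeff_derivative, Algebra.smul_def, map_add, map_natCast, map_one, mul_comm]
  rw [h1, derivative_mul, coeff_add, coeff_mul, coeff_mul, coeff_mul, map_sum,
    ← Finset.sum_add_distrib]
  refine Finset.sum_congr rfl fun x _ => ?_
  rw [hf.deriv, hg.deriv, D.leibniz, smul_eq_mul, smul_eq_mul]
  ring

theorem Sol.add {D : Derivation k B B} {f g : B[X]} (hf : Sol D f) (hg : Sol D g) :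
    Sol D (f + g) := by
  intro n
  rw [coeff_add, coeff_add, smul_add, hf n, hg n, map_add]

theorem sol_C (D : Derivation k B B) (c : k) : Sol D (C (algebraMap k B c)) := by
  intro n
  rw [coeff_C_succ, smul_zero, coeff_C]
  split_ifs
  · rw [D.map_algebraMap]
  · rw [map_zero]

/-- the exponential of a locally nilpotent derivation -/
theorem exists_exp (D : Derivation k B B) (hD : ∀ b : B, ∃ n : ℕ, D^[n] b = 0) :
    ∃ φ : B →ₐ[k] B[X], ∀ b, (φ b).coeff 0 = b ∧ (φ b).coeff 1 = D b := by
  have hDz : ∀ (b : B) (n m : ℕ), n ≤ m → D^[n] b = 0 → D^[m] b = 0 := by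
    intro b n m hnm h
    obtain ⟨d, rfl⟩ := Nat.exists_eq_add_of_le hnm
    rw [add_comm, Function.iterate_add_apply, h]
    clear h hnm
    induction d with
    | zero => rfl
    | succ d ih => rw [Function.iterate_succ_apply, map_zero, ih]
  have h1 : ∀ b : B, ∃ f : B[X], ∀ n : ℕ, f.coeff n = ((n.factorial : k)⁻¹) • D^[n] b := by
    intro b
    obtain ⟨N, hN⟩ := hD b
    refine ⟨∑ n ∈ Finset.range N, monomial n (((n.factorial : k)⁻¹) • D^[n] b), fun n => ?_⟩
    rw [finsetSum_coeff]
    by_cases hn : n < N
    · rw [Finset.sum_eq_single n]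
      · rw [coeff_monomial, if_pos rfl]
      · intro m _ hm
        rw [coeff_monomial, if_neg hm]
      · intro h
        exact absurd (Finset.mem_range.2 hn) h
    · rw [Finset.sum_eq_zero, hDz b N n (not_lt.1 hn) hN, smul_zero]
      intro m hm
      rw [coeff_monomial, if_neg]
      rintro rfl
      exact hn (Finset.mem_range.1 hm)
  choose f hf using h1
  have hsol : ∀ b, Sol D (f b) := by
    intro b n
    have h2 : ((n : k) + 1) ≠ 0 := Nat.cast_add_one_ne_zero n
    rw [hf, hf, D.map_smul, Function.iterate_succ_apply', smul_smul, Nat.factorial_succ,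
      Nat.cast_mul, Nat.cast_add, Nat.cast_one, mul_inv, ← mul_assoc, mul_inv_cancel₀ h2, one_mul]
  have h0 : ∀ b, (f b).coeff 0 = b := fun b => by
    rw [hf]
    simp
  refine ⟨{ toFun := f
            map_one' := ?_
            map_mul' := ?_
            map_zero' := ?_
            map_add' := ?_
            commutes' := ?_ }, fun b => ⟨h0 b, ?_⟩⟩
  · refine (hsol 1).ext ?_ ?_
    · have := sol_C D (1 : k)
      rwa [map_one, map_one] at this
    · rw [h0, coeff_one_zero]
  · intro a b
    refine (hsol _).ext ((hsol a).mul (hsol b)) ?_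
    rw [h0, mul_coeff_zero, h0, h0]
  · refine (hsol 0).ext ?_ ?_
    · have := sol_C D (0 : k)
      rwa [map_zero, map_zero] at this
    · rw [h0, coeff_zero]
  · intro a b
    refine (hsol _).ext ((hsol a).add (hsol b)) ?_
    rw [h0, coeff_add, h0, h0]
  · intro c
    refine (hsol _).ext (sol_C D c) ?_
    rw [h0]
    exact coeff_C_zero.symm
  · change (f b).coeff 1 = D b
    rw [hf]
    simp

end Pool.Agent.Helper44q.S
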