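import Pool.Agent.Helper44q.S.Flow
import Pool.Agent.Helper44q.S.Exp

/-! Divisors which are moved by sprays, by the additive group or by the multiplicative group. -/

set_option autoImplicit false
set_option linter.unusedSectionVars false

namespace Pool.Agent.Helper44q.S

open Polynomial FF Pool.Agent.R70.HC

section

variable (k : Type) {B : Type} [Field k] [CommRing B] [Algebra k B] (I : Set B)

/-- the ideal `I` is not preserved by an action of the additive group -/
def MovedByGa : Prop :=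
  ∃ D : Derivation k B B, (∀ b : B, ∃ n : ℕ, D^[n] b = 0) ∧ ∃ b ∈ I, D b ∉ I

/-- the ideal `I` is not preserved by an action of the multiplicative group -/
def MovedByGm : Prop :=
  ∃ (𝒜 : ℤ → Submodule k B) (_ : GradedAlgebra 𝒜), ∃ b ∈ I, ∃ i : ℤ,
    (DirectSum.decompose 𝒜 b i : B) ∉ I

/-- the ideal `I` is not preserved by one of the velocity fields of a polynomial spray -/
def MovedBySpray : Prop :=
  ∃ (N : ℕ) (φ : B →ₐ[k] MvPolynomial (Fin N) B), (∀ b, MvPolynomial.constantCoeff (φ b) = b) ∧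
    ∃ b ∈ I, ∃ i : Fin N, (φ b).coeff (Finsupp.single i 1) ∉ I

end

section

variable {k K : Type} [Field k] [Field K] [Algebra k K]

/-- `I` is the ideal of the divisor `P` on the chart `B` -/
def IsIdealOf {B : Subalgebra k K} (I : Set B) (P : Place k K) : Prop :=
  ∀ b : B, b ∈ I ↔ (b : K) = 0 ∨ 0 < P.ord b

theorem IsIdealOf.notMem {B : Subalgebra k K} {I : Set B} {P : Place k K} (h : IsIdealOf I P)
    (hB : Chart B P) {b : B} (hb : b ∉ I) : (b : K) ≠ 0 ∧ P.ord b = 0 := by
  rw [h, not_or] at hb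
  refine ⟨hb.1, ?_⟩
  have h1 := (P.reg_iff hb.1).1 (hB.1 _ b.2)
  omega

theorem IsIdealOf.pos {B : Subalgebra k K} {I : Set B} {P : Place k K} (h : IsIdealOf I P)
    {b c : B} (hb : b ∈ I) (hc : c ∉ I) (h0 : (b : K) = 0 → c = 0) : (b : K) ≠ 0 ∧ 0 < P.ord b := by
  have h1 : (b : K) ≠ 0 := by
    intro h2
    apply hc
    rw [h0 h2, h]
    exact Or.inl rfl
  exact ⟨h1, ((h b).1 hb).resolve_left h1⟩

theorem regPoly_map {B : Subalgebra k K} {P : Place k K} (hB : Chart B P) (f : B[X]) :
    RegPoly P (f.map (algebraMap B K)) := by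
  intro n
  rw [coeff_map]
  exact hB.1 _ (f.coeff n).2

theorem moves_of_line {B : Subalgebra k K} {P : Place k K} (hB : Chart B P) (φ : B →ₐ[k] B[X])
    (h0 : ∀ b, (φ b).coeff 0 = b) (b : B) (hb : (b : K) ≠ 0) (hb' : 0 < P.ord b)
    (h1 : ((φ b).coeff 1 : K) ≠ 0) (h1' : P.ord ((φ b).coeff 1) = 0) :
    ∃ s : K →ₐ[k] RatFunc K, IsFamily s ∧ Moves s P := by
  let μ : B[X] →ₐ[k] RatFunc K :=
    ((IsScalarTower.toAlgHom k K[X] (RatFunc K)).comp (Polynomial.mapAlgHom B.val))
  have hμ : ∀ f : B[X], μ f = algebraMap K[X] (RatFunc K) (f.map (algebraMap B K)) := fun f => rfl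
  have h2 : ∀ c : B, (μ.comp φ) c * algebraMap K[X] (RatFunc K) 1 =
      algebraMap K[X] (RatFunc K) ((φ c).map (algebraMap B K)) := by
    intro c
    rw [map_one, mul_one, AlgHom.comp_apply, hμ]
  have hone : RegPoly P (1 : K[X]) := by
    intro n
    rw [coeff_one]
    split_ifs
    · exact P.reg_one
    · exact P.reg_zero
  refine moves_of_chart hB (μ.comp φ) (fun c => ⟨(φ c).map (algebraMap B K), 1, coeff_one_zero, ?_,
    regPoly_map hB _, hone, h2 c⟩) ⟨b, (φ b).map (algebraMap B K), 1, hb, hb', coeff_one_zero,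
    regPoly_map hB _, hone, h2 b, ?_, ?_⟩
  · rw [coeff_map, h0]; rfl
  · rw [coeff_map]; exact h1
  · rw [coeff_map]; exact h1'

theorem MovedByGa.moves [CharZero k] {P : Place k K} {B : Subalgebra k K} {I : Set B}
    (hB : Chart B P) (hI : IsIdealOf I P) (h : MovedByGa k I) :
    ∃ s : K →ₐ[k] RatFunc K, IsFamily s ∧ Moves s P := by
  obtain ⟨D, hD, b, hb, hDb⟩ := h
  obtain ⟨φ, hφ⟩ := exists_exp D hD
  have h1 := hI.pos hb hDb fun h => by
    rw [show b = 0 from Subtype.ext h]
    exact D.map_zero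
  have h2 := hI.notMem hB hDb
  refine moves_of_line hB φ (fun b => (hφ b).1) b h1.1 h1.2 ?_ ?_
  · rw [(hφ b).2]; exact h2.1
  · rw [(hφ b).2]; exact h2.2

/-- the restriction of a polynomial to the coordinate line `i` -/
noncomputable def line {B : Type} [CommRing B] {N : ℕ} (i : Fin N) :
    MvPolynomial (Fin N) B →ₐ[B] B[X] :=
  MvPolynomial.aeval fun j => if j = i then X else 0

theorem line_coeff {B : Type} [CommRing B] {N : ℕ} (i : Fin N) (f : MvPolynomial (Fin N) B) :
    (line i f).coeff 0 = MvPolynomial.constantCoeff f ∧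
      (line i f).coeff 1 = f.coeff (Finsupp.single i 1) := by
  classical
  induction f using MvPolynomial.induction_on with
  | C a =>
    have h1 : line i (MvPolynomial.C a) = C a := MvPolynomial.algHom_C _ _
    have h2 : (0 : Fin N →₀ ℕ) ≠ Finsupp.single i 1 := by
      intro h
      have := DFunLike.congr_fun h i
      simp at this
    rw [h1, coeff_C_zero, coeff_C_succ, MvPolynomial.constantCoeff_C, MvPolynomial.coeff_C,
      if_neg h2]
    exact ⟨rfl, rfl⟩
  | add p q hp hq =>
    rw [map_add, coeff_add, coeff_add, map_add, MvPolynomial.coeff_add, hp.1, hp.2, hq.1, hq.2]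
    exact ⟨rfl, rfl⟩
  | mul_X p j hp =>
    have h1 : line (B := B) i (MvPolynomial.X j) = if j = i then X else 0 :=
      MvPolynomial.aeval_X _ _
    rw [map_mul, h1, map_mul, MvPolynomial.constantCoeff_X, mul_zero]
    by_cases hj : j = i
    · subst hj
      rw [if_pos rfl, coeff_mul_X_zero, coeff_mul_X, hp.1]
      refine ⟨rfl, ?_⟩
      have h2 : (Finsupp.single j 1 : Fin N →₀ ℕ) = 0 + Finsupp.single j 1 := (zero_add _).symm
      rw [h2, MvPolynomial.coeff_mul_X]
      rfl
    · rw [if_neg hj, mul_zero, coeff_zero, coeff_zero, MvPolynomial.coeff_mul_X', if_neg]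
      · exact ⟨rfl, rfl⟩
      · rw [Finsupp.mem_support_iff, Finsupp.single_apply, if_neg (Ne.symm hj)]
        simp

theorem MovedBySpray.moves {P : Place k K} {B : Subalgebra k K} {I : Set B}
    (hB : Chart B P) (hI : IsIdealOf I P) (h : MovedBySpray k I) :
    ∃ s : K →ₐ[k] RatFunc K, IsFamily s ∧ Moves s P := by
  obtain ⟨N, φ, h0, b, hb, i, hi⟩ := h
  have h1 := hI.pos hb hi fun h => by
    rw [show b = 0 from Subtype.ext h, map_zero]
    exact MvPolynomial.coeff_zero _
  have h2 := hI.notMem hB hi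
  refine moves_of_line hB (((line i).restrictScalars k).comp φ) (fun c => ?_) b h1.1 h1.2 ?_ ?_
  · exact (line_coeff i (φ c)).1.trans (h0 c)
  · rw [show ((((line i).restrictScalars k).comp φ) b).coeff 1 = _ from (line_coeff i (φ b)).2]
    exact h2.1
  · rw [show ((((line i).restrictScalars k).comp φ) b).coeff 1 = _ from (line_coeff i (φ b)).2]
    exact h2.2

end

section gm

variable {k B : Type} [Field k] [CommRing B] [Algebra k B] (𝒜 : ℤ → Submodule k B) [GradedAlgebra 𝒜]

open DirectSum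

/-- the Euler vector field -/
noncomputable def euler (b : B) : B :=
  (decompose 𝒜).symm (DFinsupp.mapRange (fun i c => i • c) (fun i => smul_zero i) (decompose 𝒜 b))

theorem decompose_euler (b : B) (i : ℤ) :
    decompose 𝒜 (euler 𝒜 b) i = i • decompose 𝒜 b i := by
  rw [euler, Equiv.apply_symm_apply, DFinsupp.mapRange_apply]

open Classical in
theorem homogeneous_of_euler {F : Type} [Field F] [CharZero F] (r : B →+* F)
    (H : ∀ b, r b = 0 → r (euler 𝒜 b) = 0) (n : ℕ) :
    ∀ b, (decompose 𝒜 b).support.card ≤ n → r b = 0 → ∀ i, r (decompose 𝒜 b i : B) = 0 := by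
  classical
  induction n with
  | zero =>
    intro b hb _ i
    rw [Nat.le_zero, Finset.card_eq_zero] at hb
    have h1 : decompose 𝒜 b i = 0 := by
      by_contra h
      have : i ∈ (decompose 𝒜 b).support := DFinsupp.mem_support_iff.2 h
      rw [hb] at this
      simp at this
    rw [h1]
    exact map_zero r
  | succ n ih =>
    intro b hb hrb
    rcases (decompose 𝒜 b).support.eq_empty_or_nonempty with h0 | ⟨j, hj⟩
    · exact ih b (by rw [h0]; simp) hrb
    · have h1 : ∀ i, decompose 𝒜 (euler 𝒜 b - j • b) i = (i - j) • decompose 𝒜 b i := by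
        intro i
        rw [decompose_sub, DirectSum.sub_apply, decompose_euler, sub_smul]
        congr 1
        have h2 : decompose 𝒜 (j • b) = j • decompose 𝒜 b := map_zsmul (decomposeAddEquiv 𝒜) j b
        rw [h2]
        rfl
      have h2 : r (euler 𝒜 b - j • b) = 0 := by
        rw [map_sub, map_zsmul, H b hrb, hrb, smul_zero, sub_zero]
      have h3 : (decompose 𝒜 (euler 𝒜 b - j • b)).support.card ≤ n := by
        have h4 : (decompose 𝒜 (euler 𝒜 b - j • b)).support ⊆
            (decompose 𝒜 b).support.erase j := by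
          intro i hi
          rw [DFinsupp.mem_support_iff, h1] at hi
          rw [Finset.mem_erase, DFinsupp.mem_support_iff]
          constructor
          · rintro rfl
            rw [sub_self, zero_smul] at hi
            exact hi rfl
          · intro h
            rw [h, smul_zero] at hi
            exact hi rfl
        have h5 := Finset.card_le_card h4
        rw [Finset.card_erase_of_mem hj] at h5
        omega
      have h4 := ih _ h3 h2
      have h5 : ∀ i, i ≠ j → r (decompose 𝒜 b i : B) = 0 := by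
        intro i hi
        have h6 := h4 i
        rw [h1] at h6
        have h7 : ((((i - j) • decompose 𝒜 b i : 𝒜 i)) : B) = (i - j) • (decompose 𝒜 b i : B) := rfl
        rw [h7, map_zsmul, zsmul_eq_mul] at h6
        rcases mul_eq_zero.1 h6 with h8 | h8
        · exfalso
          rw [Int.cast_eq_zero] at h8
          omega
        · exact h8
      intro i
      by_cases hi : i = j
      · subst hi
        have h6 : ∑ l ∈ (decompose 𝒜 b).support, (decompose 𝒜 b l : B) = b :=
          sum_support_decompose 𝒜 b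
        have h7 : r b = r (decompose 𝒜 b i : B) := by
          conv_lhs => rw [← h6]
          rw [map_sum, Finset.sum_eq_single i]
          · intro l _ hl
            exact h5 l hl
          · intro h
            exact absurd hj h
        rw [← h7, hrb]
      · exact h5 i hi

theorem euler_eq_sum [(i : ℤ) → (x : 𝒜 i) → Decidable (x ≠ 0)] (c : B) :
    euler 𝒜 c = ∑ i ∈ (decompose 𝒜 c).support, i • (decompose 𝒜 c i : B) := by
  have h3 : ∀ i, (decompose 𝒜 (euler 𝒜 c) i : B) = i • (decompose 𝒜 c i : B) := by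
    intro i
    rw [decompose_euler]
    rfl
  conv_lhs => rw [← sum_support_decompose 𝒜 (euler 𝒜 c)]
  rw [Finset.sum_congr rfl fun i _ => h3 i]
  refine Finset.sum_subset (fun i hi => ?_) fun i _ hi => ?_
  · rw [DFinsupp.mem_support_iff] at hi ⊢
    intro h
    apply hi
    rw [decompose_euler, h, smul_zero]
  · rw [← h3, Classical.not_not.1 (mt DFinsupp.mem_support_iff.2 hi)]
    rfl

end gm

section

variable {k K : Type} [Field k] [Field K] [Algebra k K]

open DirectSum

/-- the action of the multiplicative group in terms of `T = 1 + t` -/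
theorem exists_gm {B : Subalgebra k K} (𝒜 : ℤ → Submodule k B) [GradedAlgebra 𝒜] :
    ∃ ψ : B →ₐ[k] RatFunc K, ∀ (b : B) (i : ℤ), b ∈ 𝒜 i →
      ψ b = algebraMap K[X] (RatFunc K) (1 + X) ^ i * algebraMap K[X] (RatFunc K) (C (b : K)) := by
  have hin := RatFunc.algebraMap_injective K
  have hne : (1 + X : K[X]) ≠ 0 := by
    intro h
    have h1 := congrArg (fun f : K[X] => f.coeff 0) h
    simp at h1
  have hu : algebraMap K[X] (RatFunc K) (1 + X) ≠ 0 := (map_ne_zero_iff _ hin).2 hne
  let γ : K →ₐ[k] RatFunc K :=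
    (IsScalarTower.toAlgHom k K[X] (RatFunc K)).comp (IsScalarTower.toAlgHom k K K[X])
  have hγ : ∀ c : K, γ c = algebraMap K[X] (RatFunc K) (C c) := fun c => rfl
  let f : ∀ i, 𝒜 i →ₗ[k] RatFunc K := fun i =>
    (LinearMap.mulLeft k (algebraMap K[X] (RatFunc K) (1 + X) ^ i)).comp
      (γ.toLinearMap.comp (B.val.toLinearMap.comp (𝒜 i).subtype))
  have hf : ∀ i (c : 𝒜 i), f i c = algebraMap K[X] (RatFunc K) (1 + X) ^ i *
      algebraMap K[X] (RatFunc K) (C ((c : B) : K)) := fun i c => rfl
  have hone : f 0 (GradedMonoid.GOne.one (A := fun i => 𝒜 i)) = 1 := by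
    rw [hf, zpow_zero, one_mul]
    change algebraMap K[X] (RatFunc K) (C (1 : K)) = 1
    rw [map_one, map_one]
  have hmul : ∀ {i j : ℤ} (a : 𝒜 i) (b : 𝒜 j), f (i + j) (GradedMonoid.GMul.mul (A := fun i => 𝒜 i) a b) =
      f i a * f j b := by
    intro i j a b
    rw [hf, hf, hf, zpow_add₀ hu]
    change _ * algebraMap K[X] (RatFunc K) (C (((a : B) : K) * ((b : B) : K))) = _
    rw [map_mul, map_mul]
    ring
  let Ψ : (⨁ i, 𝒜 i) →ₐ[k] RatFunc K := DirectSum.toAlgebra k (fun i => 𝒜 i) f hone hmul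
  refine ⟨Ψ.comp (decomposeAlgEquiv 𝒜 : B →ₐ[k] ⨁ i, 𝒜 i), fun b i hb => ?_⟩
  change Ψ (decompose 𝒜 b) = _
  rw [decompose_of_mem 𝒜 hb]
  exact (DirectSum.toSemiring_of (fun i => (f i).toAddMonoidHom) hone hmul i ⟨b, hb⟩).trans
    (hf i ⟨b, hb⟩)

theorem MovedByGm.moves [CharZero k] {P : Place k K} {B : Subalgebra k K} {I : Set B}
    (hB : Chart B P) (hI : IsIdealOf I P) (h : MovedByGm k I) :
    ∃ s : K →ₐ[k] RatFunc K, IsFamily s ∧ Moves s P := by
  classical
  obtain ⟨𝒜, _, b₀, hb₀, i₀, hi₀⟩ := h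
  have : FaithfulSMul k P.RF := inferInstance
  have hRF : CharZero P.RF := charZero_of_injective_algebraMap (algebraMap k P.RF).injective
  have hreg : ∀ b : B, P.Reg (algebraMap B K b) := fun b => hB.1 _ b.2
  let r : B →+* P.RF := P.redHom (algebraMap B K) hreg
  have hr : ∀ b : B, r b = 0 ↔ ((b : K) = 0 ∨ 0 < P.ord b) := fun b => P.red_eq_zero_iff (hreg b)
  -- the Euler vector field does not preserve the ideal of `P`
  obtain ⟨b, hb, hEb⟩ : ∃ b : B, r b = 0 ∧ r (euler 𝒜 b) ≠ 0 := by
    by_contra hcon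
    push Not at hcon
    have h1 := homogeneous_of_euler 𝒜 r hcon _ b₀ le_rfl ((hr _).2 ((hI _).1 hb₀)) i₀
    exact hi₀ ((hI _).2 ((hr _).1 h1))
  obtain ⟨ψ, hψ⟩ := exists_gm 𝒜
  -- the coefficients
  have hN : ∀ c : B, ∃ N : ℕ, ∀ i ∈ (decompose 𝒜 c).support, 0 ≤ i + N := by
    intro c
    refine ⟨∑ i ∈ (decompose 𝒜 c).support, i.natAbs, fun i hi => ?_⟩
    have h1 := Finset.single_le_sum (f := fun i : ℤ => i.natAbs) (fun _ _ => Nat.zero_le _) hi
    simp only at h1
    omega
  choose N hN using hN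
  let p : B → B[X] := fun c =>
    ∑ i ∈ (decompose 𝒜 c).support, C (decompose 𝒜 c i : B) * (1 + X) ^ (i + N c).toNat
  have hp : ∀ c, p c = ∑ i ∈ (decompose 𝒜 c).support,
    C (decompose 𝒜 c i : B) * (1 + X) ^ (i + N c).toNat := fun c => rfl
  have hne : (1 + X : K[X]) ≠ 0 := by
    intro h
    have h1 := congrArg (fun f : K[X] => f.coeff 0) h
    simp at h1
  have hin := RatFunc.algebraMap_injective K
  have hu : algebraMap K[X] (RatFunc K) (1 + X) ≠ 0 := (map_ne_zero_iff _ hin).2 hne
  have hmap : ∀ e : ℕ, ((1 + X : B[X]) ^ e).map (algebraMap B K) = (1 + X : K[X]) ^ e := by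
    intro e
    rw [Polynomial.map_pow, Polynomial.map_add, Polynomial.map_one, Polynomial.map_X]
  have heq : ∀ c : B, ψ c * algebraMap K[X] (RatFunc K) (((1 + X : B[X]) ^ N c).map
      (algebraMap B K)) = algebraMap K[X] (RatFunc K) ((p c).map (algebraMap B K)) := by
    intro c
    have h1 : ψ c = ∑ i ∈ (decompose 𝒜 c).support, ψ (decompose 𝒜 c i : B) := by
      conv_lhs => rw [← sum_support_decompose 𝒜 c]
      rw [map_sum]
    rw [h1, Finset.sum_mul, hp, Polynomial.map_sum, map_sum]
    refine Finset.sum_congr rfl fun i hi => ?_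
    rw [hψ _ i (decompose 𝒜 c i).2, hmap, Polynomial.map_mul, Polynomial.map_C, hmap, map_mul,
      map_pow, map_pow, mul_right_comm, ← zpow_natCast, ← zpow_add₀ hu, ← zpow_natCast,
      Int.toNat_of_nonneg (hN c i hi), mul_comm]
    rfl
  have hp0 : ∀ c, (p c).coeff 0 = c := by
    intro c
    rw [hp, finsetSum_coeff]
    conv_rhs => rw [← sum_support_decompose 𝒜 c]
    refine Finset.sum_congr rfl fun i _ => ?_
    rw [mul_coeff_zero, coeff_C_zero, coeff_one_add_X_pow, Nat.choose_zero_right, Nat.cast_one,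
      mul_one]
  have hp1 : ∀ c, (p c).coeff 1 = euler 𝒜 c + N c • c := by
    intro c
    rw [hp, finsetSum_coeff]
    have h1 : euler 𝒜 c = ∑ i ∈ (decompose 𝒜 c).support, i • (decompose 𝒜 c i : B) := by
      exact euler_eq_sum 𝒜 c
    have h2 : N c • c = ∑ i ∈ (decompose 𝒜 c).support, N c • (decompose 𝒜 c i : B) := by
      rw [← Finset.smul_sum, sum_support_decompose]
    rw [h1, h2, ← Finset.sum_add_distrib]
    refine Finset.sum_congr rfl fun i hi => ?_
    rw [coeff_C_mul, coeff_one_add_X_pow, Nat.choose_one_right, zsmul_eq_mul, nsmul_eq_mul,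
      ← add_mul, mul_comm]
    congr 1
    have h3 := Int.toNat_of_nonneg (hN c i hi)
    have h4 : (((i + N c).toNat : ℤ) : B) = ((i + N c : ℤ) : B) := by rw [h3]
    rw [Int.cast_natCast, Int.cast_add, Int.cast_natCast] at h4
    exact h4
  have hb0 : (b : K) ≠ 0 := by
    intro h
    have h1 : b = 0 := Subtype.ext h
    apply hEb
    rw [h1, euler, decompose_zero]
    have h2 : DFinsupp.mapRange (fun (i : ℤ) (c : 𝒜 i) => i • c) (fun i => smul_zero i)
      (0 : ⨁ i, 𝒜 i) = 0 := DFinsupp.mapRange_zero _ _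
    rw [h2, decompose_symm_zero, map_zero]
  have hbord : 0 < P.ord b := by
    rcases (hr b).1 hb with h | h
    · exact absurd h hb0
    · exact h
  have hq0 : ∀ e : ℕ, (((1 + X : B[X]) ^ e).map (algebraMap B K)).coeff 0 = 1 := by
    intro e
    rw [hmap, coeff_one_add_X_pow, Nat.choose_zero_right, Nat.cast_one]
  have hr1 : r ((p b).coeff 1) ≠ 0 := by
    rw [hp1, map_add, map_nsmul, hb, smul_zero, add_zero]
    exact hEb
  have hr2 : ((((p b).coeff 1 : B) : K) ≠ 0) ∧ P.ord (((p b).coeff 1 : B) : K) = 0 := by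
    rw [Ne, hr, not_or] at hr1
    refine ⟨hr1.1, ?_⟩
    have h1 := (P.reg_iff hr1.1).1 (hreg _)
    omega
  refine moves_of_chart hB ψ (fun c => ⟨(p c).map (algebraMap B K),
    ((1 + X : B[X]) ^ N c).map (algebraMap B K), hq0 _, ?_, regPoly_map hB _, regPoly_map hB _,
    heq c⟩) ⟨b, (p b).map (algebraMap B K), ((1 + X : B[X]) ^ N b).map (algebraMap B K), hb0,
    hbord, hq0 _, regPoly_map hB _, regPoly_map hB _, heq b, ?_, ?_⟩
  · rw [coeff_map, hp0]; rfl
  · rw [coeff_map]; exact hr2.1
  · rw [coeff_map]; exact hr2.2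

end

end Pool.Agent.Helper44q.S
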