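import Pool.Agent.Helper44q.S.Mov

/-! Families of rational curves from actions of the additive and the multiplicative group and from
sprays on affine open subsets. -/

set_option autoImplicit false

namespace Pool.Agent.Helper44q.S

open Polynomial FF Pool.Agent.R70.HC

section

variable {k K : Type} [Field k] [Field K] [Algebra k K]

/-- The affine variety with the ring of functions `B` contains the general point of the divisor `P`:
the ring of `P` is a localisation of `B`. -/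
def Chart (B : Subalgebra k K) (P : Place k K) : Prop :=
  (∀ b ∈ B, P.Reg b) ∧ ∀ a : K, P.Reg a → ∃ b ∈ B, ∃ c ∈ B, c ≠ 0 ∧ P.ord c = 0 ∧ a * c = b

theorem Chart.frac {B : Subalgebra k K} {P : Place k K} (h : Chart B P) : IsFractionRing B K := by
  have h1 : ∀ a : K, ∃ b ∈ B, ∃ c ∈ B, c ≠ 0 ∧ a = b / c := by
    intro a
    rcases P.O.mem_or_inv_mem a with h2 | h2
    · obtain ⟨b, hb, c, hc, hc0, -, he⟩ := h.2 a h2
      exact ⟨b, hb, c, hc, hc0, by rw [← he]; field_simp⟩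
    · obtain ⟨b, hb, c, hc, hc0, -, he⟩ := h.2 _ h2
      rcases eq_or_ne a 0 with rfl | ha
      · exact ⟨0, zero_mem _, 1, one_mem _, one_ne_zero, by simp⟩
      · refine ⟨c, hc, b, hb, ?_, ?_⟩
        · rw [← he]; exact mul_ne_zero (inv_ne_zero ha) hc0
        · rw [← he]; field_simp
  refine IsFractionRing.of_field B K fun a => ?_
  obtain ⟨b, hb, c, hc, hc0, he⟩ := h1 a
  exact ⟨⟨b, hb⟩, ⟨c, hc⟩, he⟩

theorem eval_rep {r : RatFunc K} {p q : K[X]} (hq : q.coeff 0 ≠ 0)
    (h : r * algebraMap K[X] (RatFunc K) q = algebraMap K[X] (RatFunc K) p) :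
    RatFunc.eval (RingHom.id K) 0 r = p.coeff 0 / q.coeff 0 := by
  have hin := RatFunc.algebraMap_injective K
  have hd0 : algebraMap K[X] (RatFunc K) r.denom ≠ 0 :=
    (map_ne_zero_iff _ hin).2 r.denom_ne_zero
  have h1 : r.num * q = p * r.denom := by
    apply hin
    rw [map_mul, map_mul, ← h]
    have h3 := RatFunc.num_div_denom r
    rw [div_eq_iff hd0] at h3
    rw [h3]
    ring
  have h2 : r.denom ∣ q := by
    refine (RatFunc.isCoprime_num_denom r).symm.dvd_of_dvd_mul_left ?_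
    rw [h1]
    exact dvd_mul_left _ _
  have h3 : r.denom.coeff 0 ≠ 0 := by
    intro h4
    obtain ⟨g, hg⟩ := h2
    rw [hg, mul_coeff_zero, h4, zero_mul] at hq
    exact hq rfl
  rw [RatFunc.eval, eval₂_id, eval₂_id, ← coeff_zero_eq_eval_zero, ← coeff_zero_eq_eval_zero,
    div_eq_div_iff h3 hq, ← mul_coeff_zero, ← mul_coeff_zero, h1]

/-- from a homomorphism of `B` to `K(t)` to a family -/
theorem exists_family (B : Subalgebra k K) (hB : IsFractionRing B K) (ψ : B →ₐ[k] RatFunc K)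
    (hψ : ∀ b : B, ∃ p q : K[X], q.coeff 0 = 1 ∧ p.coeff 0 = b ∧
      ψ b * algebraMap K[X] (RatFunc K) q = algebraMap K[X] (RatFunc K) p) :
    ∃ s : K →ₐ[k] RatFunc K, IsFamily s ∧ ∀ b : B, s b = ψ b := by
  have hin := RatFunc.algebraMap_injective K
  have hinj : Function.Injective ψ := by
    rw [injective_iff_map_eq_zero]
    intro b hb
    obtain ⟨p, q, -, h2, h3⟩ := hψ b
    rw [hb, zero_mul] at h3
    have h4 : p = 0 := (map_eq_zero_iff _ hin).1 h3.symm
    rw [h4, coeff_zero] at h2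
    exact Subtype.ext h2.symm
  let s : K →ₐ[k] RatFunc K := IsFractionRing.liftAlgHom (g := ψ) hinj
  have hs : ∀ b : B, s b = ψ b := fun b => IsFractionRing.lift_algebraMap (A := B) hinj b
  refine ⟨s, fun a => ?_, hs⟩
  obtain ⟨b, c, hc, rfl⟩ := IsFractionRing.div_surjective (A := B) a
  have hc0 : (c : K) ≠ 0 := by
    have := nonZeroDivisors.ne_zero hc
    simpa using this
  obtain ⟨p, q, h1, h2, h3⟩ := hψ b
  obtain ⟨p', q', h1', h2', h3'⟩ := hψ c
  have hp' : p' ≠ 0 := by rintro rfl; rw [coeff_zero] at h2'; exact hc0 h2'.symm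
  have hsc : s c ≠ 0 := (map_ne_zero s).2 hc0
  have h5 : s (algebraMap B K b / algebraMap B K c) * algebraMap K[X] (RatFunc K) (q * p') =
      algebraMap K[X] (RatFunc K) (p * q') := by
    rw [map_div₀]
    change s b / s c * _ = _
    rw [map_mul, map_mul, ← h3, ← h3', ← hs, ← hs]
    field_simp
  rw [eval_rep (by rw [mul_coeff_zero, h1, h2', one_mul]; exact hc0) h5, mul_coeff_zero,
    mul_coeff_zero, h1, h2, h1', h2', one_mul, mul_one]
  rfl

/-- from a homomorphism with regular coefficients on a chart to a transversal family -/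
theorem moves_of_chart {B : Subalgebra k K} {P : Place k K} (hB : Chart B P) (ψ : B →ₐ[k] RatFunc K)
    (hψ : ∀ b : B, ∃ p q : K[X], q.coeff 0 = 1 ∧ p.coeff 0 = b ∧ RegPoly P p ∧ RegPoly P q ∧
      ψ b * algebraMap K[X] (RatFunc K) q = algebraMap K[X] (RatFunc K) p)
    (hmv : ∃ (b : B) (p q : K[X]), (b : K) ≠ 0 ∧ 0 < P.ord b ∧ q.coeff 0 = 1 ∧ RegPoly P p ∧
      RegPoly P q ∧ ψ b * algebraMap K[X] (RatFunc K) q = algebraMap K[X] (RatFunc K) p ∧
      p.coeff 1 ≠ 0 ∧ P.ord (p.coeff 1) = 0) :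
    ∃ s : K →ₐ[k] RatFunc K, IsFamily s ∧ Moves s P := by
  obtain ⟨s, hs, hsψ⟩ := exists_family B hB.frac ψ (fun b => by
    obtain ⟨p, q, h1, h2, -, -, h3⟩ := hψ b
    exact ⟨p, q, h1, h2, h3⟩)
  refine ⟨s, hs, fun a ha => ?_, ?_⟩
  · obtain ⟨b, hb, c, hc, hc0, hc', he⟩ := hB.2 a ha
    obtain ⟨p, q, h1, h2, h3, h4, h5⟩ := hψ ⟨b, hb⟩
    obtain ⟨p', q', h1', h2', h3', h4', h5'⟩ := hψ ⟨c, hc⟩
    have hmul : ∀ {f g : K[X]}, RegPoly P f → RegPoly P g → RegPoly P (f * g) := by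
      intro f g hf hg n
      rw [coeff_mul, ← Place.mem_O]
      exact sum_mem fun x _ => P.reg_mul (hf _) (hg _)
    refine ⟨p * q', q * p', hmul h3 h4', hmul h4 h3', ?_, ?_, ?_⟩
    · rw [mul_coeff_zero, h1, h2', one_mul]; exact hc0
    · rw [mul_coeff_zero, h1, h2', one_mul]; exact hc'
    · rw [map_mul, map_mul, ← h5, ← h5', ← hsψ, ← hsψ]
      have h6 : s b = s a * s c := by rw [← map_mul, he]
      change s a * (_ * (s c * _)) = s b * _ * _
      rw [h6]
      ring
  · obtain ⟨b, p, q, h1, h2, h3, h4, h5, h6, h7, h8⟩ := hmv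
    exact ⟨b, p, q, h1, h2, ⟨h4, h5, by rw [h3]; exact one_ne_zero, by rw [h3, P.ord_one],
      by rw [hsψ]; exact h6⟩, h7, h8⟩

end

end Pool.Agent.Helper44q.S
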