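import Pool.Agent.Helper44q.S.Den

/-! Covers which are ramified over divisors moved by sprays. -/

set_option autoImplicit false
set_option linter.unusedSectionVars false

namespace Pool.Agent.Helper44q.S

open AlgebraicGeometry CategoryTheory W560.HP FF
open Pool.Agent.R70.HC
open Pool.Agent.Y742.HC (DensePoints)
open Pool.Agent.Helper44q.Q

section

variable {k K : Type} [Field k] [Field K] [Algebra k K]

/-- The divisor `P` is moved: by a family of rational curves, an action of the additive or the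
multiplicative group, or a spray. -/
def Moved (P : Place k K) : Prop :=
  (∃ s : K →ₐ[k] RatFunc K, IsFamily s ∧ Moves s P) ∨
    ∃ (B : Subalgebra k K) (I : Set B), Chart B P ∧ IsIdealOf I P ∧
      (MovedByGa k I ∨ MovedByGm k I ∨ MovedBySpray k I ∨ MovedByDominatingSpray k I)

theorem Moved.meets [CharZero k] {P : Place k K} (h : Moved P) :
    ∃ s : K →ₐ[k] RatFunc K, IsFamily s ∧ Meets s P 1 := by
  have h1 : ∃ s : K →ₐ[k] RatFunc K, IsFamily s ∧ Moves s P := by
    rcases h with h | ⟨B, I, hB, hI, h | h | h | h⟩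
    · exact h
    · exact h.moves hB hI
    · exact h.moves hB hI
    · exact h.moves hB hI
    · exact (h.spray hB hI).moves hB hI
  obtain ⟨s, hs, hm⟩ := h1
  exact ⟨s, hs, meets_of_moves hs hm⟩

/-- There is a polynomial spray on an affine variety with function field `K`, with the ring of
functions `B`, which is submersive at a `k`-point `ε`: there are functions `x_1, …, x_n` over which
all the functions are algebraic such that the vectors of the velocities of the `x_j` at `ε` are
linearly independent. -/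
def SubmersiveSpray (k K : Type) [Field k] [Field K] [Algebra k K] : Prop :=
  ∃ (B : Type) (_ : CommRing B) (_ : Algebra k B) (_ : Algebra B K) (_ : IsScalarTower k B K)
    (_ : IsFractionRing B K) (N n : ℕ) (φ : B →ₐ[k] MvPolynomial (Fin N) B) (ε : B →ₐ[k] k)
    (x : Fin n → B), (∀ b, MvPolynomial.constantCoeff (φ b) = b) ∧
    (∀ b : B, IsAlgebraic (Algebra.adjoin k (Set.range x)) b) ∧
    LinearIndependent k fun (j : Fin n) (i : Fin N) => ε ((φ (x j)).coeff (Finsupp.single i 1))

theorem SubmersiveSpray.embed (h : SubmersiveSpray k K) :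
    ∃ n : ℕ, Nonempty (K →ₐ[k] Rat' k n) := by
  obtain ⟨B, _, _, _, _, _, N, n, φ, ε, x, -, halg, hlin⟩ := h
  have : IsDomain B := (IsFractionRing.injective B K).isDomain
  let ψ : B →ₐ[k] MvPolynomial (Fin N) k := (MvPolynomial.mapAlgHom ε).comp φ
  have hψ : ∀ (b : B) (m : Fin N →₀ ℕ), (ψ b).coeff m = ε ((φ b).coeff m) := fun b m =>
    MvPolynomial.coeff_map (ε : B →+* k) (φ b) m
  obtain ⟨χ, hχ⟩ := exists_injective ψ x halg (by
    simp only [hψ]
    exact hlin)
  let χ' : B →ₐ[k] Rat' k n :=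
    (IsScalarTower.toAlgHom k (MvPolynomial (Fin n) k) (Rat' k n)).comp χ
  have hinj : Function.Injective χ' :=
    (IsFractionRing.injective (MvPolynomial (Fin n) k) (Rat' k n)).comp hχ
  exact ⟨n, ⟨IsFractionRing.liftAlgHom (g := χ') hinj⟩⟩

end

variable (k : Type) [Field k] [CharZero k]
  (hk : ∃ S : Finset k, IntermediateField.adjoin ℚ (S : Set k) = ⊤)
  (K : Type) [Field K] [Algebra k K]
  (X : Scheme.{0}) (f : X ⟶ Spec (CommRingCat.of k)) [IsIntegral X] [LocallyOfFiniteType f]
  (e : X.functionField ≃+* K) (he : ∀ a : k, e (toFF k X f a) = algebraMap k K a)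

include hk he

theorem dense (h : SubmersiveSpray k K) : DensePoints k X f := by
  obtain ⟨n, ⟨ι⟩⟩ := h.embed
  exact dense_of_embed k (hilbNR_of_fg hk) K ι X f e he

theorem weak (hd : DensePoints k X f)
    (q : ℕ) (Y : Fin q → Scheme.{0}) (π : ∀ i, Y i ⟶ X) (hYi : ∀ i, IsIntegral (Y i))
    (hfin : ∀ i, IsFinite (π i)) (hsurj : ∀ i, Surjective (π i))
    (H : ∀ i, ∃ (M : Type) (_ : Field M) (_ : Algebra k M) (_ : Algebra K M)
      (_ : IsScalarTower k K M), IsExtensionOf (π i) e M ∧
      ((∃ c : M, IsAlgebraic k c ∧ c ∉ Set.range (algebraMap k M)) ∨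
        ∃ P : FF.Place k K, Moved P ∧ ¬ UnramifiedAt M P)) :
    Dense {x : X | ∃ s : Spec (CommRingCat.of k) ⟶ X, s ≫ f = 𝟙 _ ∧ x ∈ Set.range s.base ∧
      ∀ i (t : Spec (CommRingCat.of k) ⟶ Y i), t ≫ π i ≠ s} := by
  refine weak_ram k hk K X f e he hd q Y π hYi hfin hsurj fun i => ?_
  obtain ⟨M, iM1, iM2, iM3, iM4, hext, hM⟩ := H i
  refine ⟨M, iM1, iM2, iM3, iM4, hext, ?_⟩
  rcases hM with h | ⟨P, hP, hun⟩
  · exact Or.inl h
  · obtain ⟨s, hs, hm⟩ := hP.meets
    refine Or.inr (Or.inr ⟨s, P, 1, hs, hm, fun hr => hun ?_⟩)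
    intro Q n hn hQ
    exact Nat.dvd_one.1 (hr Q n hn hQ)

theorem hilbert (hd : DensePoints k X f)
    (H : ∀ (M : Type) [Field M] [Algebra k M] [Algebra K M] [IsScalarTower k K M]
        [FiniteDimensional K M], (∀ a : M, IsAlgebraic k a → a ∈ Set.range (algebraMap k M)) →
        (∀ P : FF.Place k K, Moved P → UnramifiedAt M P) →
        Function.Surjective (algebraMap K M)) :
    HilbertProperty k X f ∧
      ((∀ x : X, IsIntegrallyClosed (X.presheaf.stalk x)) → HilbertPropertyIso k X f) := by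
  refine scheme_ram k hk K X f e he hd fun M _ _ _ _ _ hc hl => H M hc fun P hP => ?_
  obtain ⟨s, hs, hm⟩ := hP.meets
  intro Q n hn hQ
  exact Nat.dvd_one.1 (hl s P 1 hs hm Q n hn hQ)

end Pool.Agent.Helper44q.S
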