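import Pool.Agent.R70.HC.Wk

/-! Families of rational curves which are transversal to a divisor meet it with multiplicity one. -/

set_option autoImplicit false

namespace Pool.Agent.Helper44q.S

open Polynomial FF Pool.Agent.R70.HC IsDedekindDomain

section

variable {k K : Type} [Field k] [Field K] [Algebra k K]

/-- the coefficients of `p` are regular at `P` -/
def RegPoly (P : Place k K) (p : K[X]) : Prop := ∀ n, P.Reg (p.coeff n)

/-- `s a = p / q`, where `p` and `q` are polynomials in `t` whose coefficients are regular at `P`, and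
the constant coefficient of `q` is invertible at `P` -/
def Rep (s : K →ₐ[k] RatFunc K) (P : Place k K) (a : K) (p q : K[X]) : Prop :=
  RegPoly P p ∧ RegPoly P q ∧ q.coeff 0 ≠ 0 ∧ P.ord (q.coeff 0) = 0 ∧
    s a * algebraMap K[X] (RatFunc K) q = algebraMap K[X] (RatFunc K) p

/-- The family `s` of rational curves is regular along the divisor `P`, and it is transversal to `P`:
the derivative at `t = 0` of some function in the ideal of `P` is not in the ideal of `P`. -/
def Moves (s : K →ₐ[k] RatFunc K) (P : Place k K) : Prop :=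
  (∀ a, P.Reg a → ∃ p q, Rep s P a p q) ∧
  ∃ a p q, a ≠ 0 ∧ 0 < P.ord a ∧ Rep s P a p q ∧ p.coeff 1 ≠ 0 ∧ P.ord (p.coeff 1) = 0

variable {Ω : Type} [Field Ω] [Algebra K Ω]

theorem aeval_mem {P : Place k K} {W : ValuationSubring Ω}
    (hW : W.comap (algebraMap K Ω) = P.O) {p : K[X]} (hp : RegPoly P p) {α : Ω} (hα : α ∈ W) :
    aeval α p ∈ W := by
  rw [aeval_eq_sum_range]
  refine sum_mem fun n _ => ?_
  rw [Algebra.smul_def]
  refine mul_mem ?_ (pow_mem hα n)
  have h1 : p.coeff n ∈ P.O := hp n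
  rw [← hW] at h1
  exact h1

theorem nu_iff {P : Place k K} {W : ValuationSubring Ω}
    (hW : W.comap (algebraMap K Ω) = P.O) {a : K} (ha : a ≠ 0) :
    algebraMap K Ω a ∈ W.nonunits ↔ 0 < P.ord a := by
  rw [ValuationSubring.mem_nonunits_iff_or, ← map_inv₀]
  have h1 : algebraMap K Ω a ≠ 0 := (_root_.map_ne_zero _).2 ha
  have h2 : algebraMap K Ω a⁻¹ ∈ W ↔ a⁻¹ ∈ P.O := by
    rw [← hW]; rfl
  rw [h2, Place.mem_O, Place.reg_iff _ (inv_ne_zero ha), P.ord_inv]
  constructor
  · rintro (h | h)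
    · exact absurd h h1
    · omega
  · intro h
    right
    omega

/-- a root in the maximal ideal -/
theorem exists_root [IsAlgClosed Ω] {P : Place k K} {W : ValuationSubring Ω}
    (hW : W.comap (algebraMap K Ω) = P.O) {p : K[X]} (h0 : p.coeff 0 ≠ 0)
    (h0' : 0 < P.ord (p.coeff 0)) (h1 : p.coeff 1 ≠ 0) (h1' : P.ord (p.coeff 1) = 0) :
    ∃ α : Ω, α ∈ W.nonunits ∧ aeval α p = 0 := by
  classical
  by_contra hcon
  push Not at hcon
  have hinj := (algebraMap K Ω).injective
  have hev : (p.map (algebraMap K Ω)).eval 0 = algebraMap K Ω (p.coeff 0) := by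
    rw [← coeff_zero_eq_eval_zero, coeff_map]
  have hev' : (p.map (algebraMap K Ω)).derivative.eval 0 = algebraMap K Ω (p.coeff 1) := by
    rw [← coeff_zero_eq_eval_zero, coeff_derivative, coeff_map]
    simp
  have hne : (p.map (algebraMap K Ω)).eval 0 ≠ 0 := by
    rw [hev]; exact (_root_.map_ne_zero _).2 h0
  have h2 := (IsAlgClosed.splits (p.map (algebraMap K Ω))).eval_derivative_div_eval_of_ne_zero hne
  have h3 : ((p.map (algebraMap K Ω)).roots.map fun z => 1 / (0 - z)).sum ∈ W := by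
    refine W.toSubring.multiset_sum_mem _ fun y hy => ?_
    rw [Multiset.mem_map] at hy
    obtain ⟨z, hz, rfl⟩ := hy
    have hp0 : p.map (algebraMap K Ω) ≠ 0 := by
      intro h; rw [h, eval_zero] at hne; exact hne rfl
    rw [mem_roots hp0, IsRoot, eval_map, ← aeval_def] at hz
    have h4 : z ∉ W.nonunits := fun h => hcon z h hz
    rw [ValuationSubring.mem_nonunits_iff_or, not_or, not_not] at h4
    rw [zero_sub, one_div, inv_neg]
    exact neg_mem h4.2
  rw [← h2, hev, hev', ← map_div₀] at h3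
  have h5 : p.coeff 1 / p.coeff 0 ∈ P.O := by
    rw [← hW]; exact h3
  rw [Place.mem_O, Place.reg_iff _ (div_ne_zero h1 h0), P.ord_div h1 h0] at h5
  omega

/-- at an element of the maximal ideal the value is congruent to the constant coefficient -/
theorem aeval_sub_mem {P : Place k K} {W : ValuationSubring Ω}
    (hW : W.comap (algebraMap K Ω) = P.O) {p : K[X]} (hp : RegPoly P p) {α : Ω}
    (hα : α ∈ W.nonunits) : aeval α p - algebraMap K Ω (p.coeff 0) ∈ W.nonunits := by
  have h1 : aeval α p = aeval α (divX p) * α + algebraMap K Ω (p.coeff 0) := by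
    conv_lhs => rw [← divX_mul_X_add p]
    rw [map_add, map_mul, aeval_X, aeval_C]
  rw [h1, add_sub_cancel_right]
  have h2 : aeval α (divX p) ∈ W := by
    refine aeval_mem hW (fun n => ?_) (ValuationSubring.nonunits_subset hα)
    rw [coeff_divX]
    exact hp _
  rw [ValuationSubring.mem_nonunits_iff] at hα ⊢
  rw [map_mul]
  exact lt_of_le_of_lt (mul_le_of_le_one_left' ((W.valuation_le_one_iff _).2 h2)) hα

theorem aeval_ne_zero {P : Place k K} {W : ValuationSubring Ω}
    (hW : W.comap (algebraMap K Ω) = P.O) {p : K[X]} (hp : RegPoly P p) {α : Ω}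
    (hα : α ∈ W.nonunits) (h0 : p.coeff 0 ≠ 0) (h0' : P.ord (p.coeff 0) = 0) :
    aeval α p ≠ 0 := by
  intro h
  have h1 := aeval_sub_mem hW hp hα
  rw [h, zero_sub] at h1
  have h2 : algebraMap K Ω (p.coeff 0) ∈ W.nonunits := by
    rw [ValuationSubring.mem_nonunits_iff] at h1 ⊢
    rwa [Valuation.map_neg] at h1
  rw [nu_iff hW h0] at h2
  omega

theorem rep_eval {s : K →ₐ[k] RatFunc K} (hs : IsFamily s) {P : Place k K} {a : K} {p q : K[X]}
    (h : Rep s P a p q) : p.coeff 0 = a * q.coeff 0 := by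
  obtain ⟨-, -, h0, -, h1⟩ := h
  have h2 : (C (q.coeff 0)⁻¹ * p).eval 0 = a := by
    refine fam_eval (D := C (q.coeff 0)⁻¹ * q) hs ?_ ?_
    · rw [eval_mul, eval_C, ← coeff_zero_eq_eval_zero, inv_mul_cancel₀ h0]
    · rw [map_mul, map_mul, ← h1]
      ring
  rw [eval_mul, eval_C, ← coeff_zero_eq_eval_zero, inv_mul_eq_iff_eq_mul₀ h0] at h2
  rw [h2, mul_comm]

/-- the place of `K(t)` given by an algebraic element -/
theorem exists_place {α : Ω} (hα : IsIntegral K α) :
    ∃ E : Place k (RatFunc K),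
      (∀ f : K[X], aeval α f ≠ 0 → E.ord (algebraMap K[X] (RatFunc K) f) = 0) ∧
      ∀ f : K[X], aeval α f = 0 → aeval α (derivative f) ≠ 0 →
        E.ord (algebraMap K[X] (RatFunc K) f) = 1 := by
  have hirr := minpoly.irreducible hα
  have hμ0 := hirr.ne_zero
  let v : HeightOneSpectrum K[X] := ⟨Ideal.span {minpoly K α},
    (Ideal.span_singleton_prime hμ0).2 hirr.prime, by rwa [Ne, Ideal.span_singleton_eq_bot]⟩
  have hmem : ∀ f : K[X], f ∈ v.asIdeal ↔ aeval α f = 0 := fun f => by
    rw [← minpoly.dvd_iff]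
    exact Ideal.mem_span_singleton
  have h1 : ∀ f : K[X], aeval α f ≠ 0 →
      (placeOf (k := k) (L := RatFunc K) v).ord (algebraMap K[X] (RatFunc K) f) = 0 := by
    intro f hf
    rw [placeOf_ord, (HeightOneSpectrum.valuation_eq_one_iff_notMem v).2
      (fun h => hf ((hmem f).1 h))]
    simp
  refine ⟨placeOf (k := k) (L := RatFunc K) v, h1, fun f hf hf' => ?_⟩
  obtain ⟨g, rfl⟩ := (minpoly.dvd_iff).2 hf
  have hg : aeval α g ≠ 0 := by
    intro hg
    apply hf'
    rw [derivative_mul, map_add, map_mul, map_mul, hg, minpoly.aeval, mul_zero, zero_mul, add_zero]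
  have hg0 : g ≠ 0 := by
    rintro rfl
    exact hg (map_zero _)
  have hin := RatFunc.algebraMap_injective K
  rw [map_mul, Place.ord_mul _ ((map_ne_zero_iff _ hin).2 hμ0) ((map_ne_zero_iff _ hin).2 hg0),
    h1 g hg, add_zero, placeOf_ord, HeightOneSpectrum.valuation_of_algebraMap,
    HeightOneSpectrum.intValuation_singleton v hμ0 rfl]
  simp

/-- a family which is transversal to the divisor `P` meets it with multiplicity one -/
theorem meets_of_moves {s : K →ₐ[k] RatFunc K} (hs : IsFamily s) {P : Place k K}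
    (hP : Moves s P) : Meets s P 1 := by
  obtain ⟨hreg, a, p, q, ha, hPa, hrep, h1, h1'⟩ := hP
  have hin := RatFunc.algebraMap_injective K
  obtain ⟨W, hW⟩ := Pool.Agent.Y536.PS.extv K (AlgebraicClosure K) P.O
  have hp0 := rep_eval hs hrep
  obtain ⟨hpr, hqr, hq0, hq0', heq⟩ := hrep
  have hpne : p.coeff 0 ≠ 0 := by rw [hp0]; exact mul_ne_zero ha hq0
  have hppos : 0 < P.ord (p.coeff 0) := by rw [hp0, P.ord_mul ha hq0, hq0', add_zero]; exact hPa
  obtain ⟨α, hα, hroot⟩ := exists_root hW hpne hppos h1 h1'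
  obtain ⟨E, hE0, hE1⟩ := exists_place (k := k) (Algebra.IsIntegral.isIntegral (R := K) α)
  have hsimple : aeval α (derivative p) ≠ 0 := by
    refine aeval_ne_zero hW (fun n => ?_) hα ?_ ?_
    · rw [coeff_derivative]
      refine P.reg_mul (hpr _) ?_
      have h2 := P.reg_const (n + 1 : k)
      rw [map_add, map_natCast, map_one] at h2
      exact h2
    · rw [coeff_derivative]; simpa using h1
    · rw [coeff_derivative]; simpa using h1'
  -- units
  have hunit : ∀ b : K, b ≠ 0 → P.ord b = 0 → E.ord (s b) = 0 := by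
    intro b hb hb'
    obtain ⟨p', q', hrep'⟩ := hreg b (Or.inr hb'.ge)
    have h2 := rep_eval hs hrep'
    obtain ⟨hpr', hqr', hq0'', hq0''', heq'⟩ := hrep'
    have h3 : aeval α q' ≠ 0 := aeval_ne_zero hW hqr' hα hq0'' hq0'''
    have h4 : aeval α p' ≠ 0 := by
      refine aeval_ne_zero hW hpr' hα ?_ ?_
      · rw [h2]; exact mul_ne_zero hb hq0''
      · rw [h2, P.ord_mul hb hq0'', hb', hq0''', add_zero]
    have h5 : q' ≠ 0 := by rintro rfl; exact hq0'' (coeff_zero _)
    have h6 := hE0 _ h4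
    rw [← heq', E.ord_mul ((map_ne_zero s).2 hb) ((map_ne_zero_iff _ hin).2 h5), hE0 _ h3,
      add_zero] at h6
    exact h6
  have hsa : E.ord (s a) = 1 := by
    have h3 : aeval α q ≠ 0 := aeval_ne_zero hW hqr hα hq0 hq0'
    have h5 : q ≠ 0 := by rintro rfl; exact hq0 (coeff_zero _)
    have h6 := hE1 _ hroot hsimple
    rw [← heq, E.ord_mul ((map_ne_zero s).2 ha) ((map_ne_zero_iff _ hin).2 h5), hE0 _ h3,
      add_zero] at h6
    exact h6
  obtain ⟨π, hπ, hπ'⟩ := P.surj
  have hall : ∀ b : K, b ≠ 0 → E.ord (s b) = P.ord b * E.ord (s π) := by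
    intro b hb
    have hz : π ^ (P.ord b) ≠ 0 := zpow_ne_zero _ hπ
    have hu : b / π ^ (P.ord b) ≠ 0 := div_ne_zero hb hz
    have h2 := hunit _ hu (by rw [P.ord_div hb hz, P.ord_zpow, hπ']; ring)
    rw [map_div₀, map_zpow₀, E.ord_div ((map_ne_zero s).2 hb)
      (zpow_ne_zero _ ((map_ne_zero s).2 hπ)), E.ord_zpow] at h2
    omega
  have h7 : P.ord a * E.ord (s π) = 1 := by rw [← hall a ha, hsa]
  have h8 : E.ord (s π) = 1 := by
    rcases Int.eq_one_or_neg_one_of_mul_eq_one h7 with h | h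
    · rw [h, one_mul] at h7; exact h7
    · omega
  refine ⟨one_pos, E, fun c hc => ?_, fun b => ?_⟩
  · have h9 := hE0 (C c) (by rw [aeval_C]; exact (_root_.map_ne_zero _).2 hc)
    exact h9
  · rcases eq_or_ne b 0 with rfl | hb
    · rw [map_zero, E.ord_zero, P.ord_zero, mul_zero]
    · rw [hall b hb, h8, Nat.cast_one, one_mul, mul_one]

end

end Pool.Agent.Helper44q.S
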