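import Mathlib

/-! Submersive families of points: an embedding in a field of rational functions. -/

set_option autoImplicit false
set_option linter.unusedSectionVars false

namespace Pool.Agent.Helper44q.S

open MvPolynomial

section

variable {k : Type} [Field k] {n N : ℕ}

/-- the ideal of the origin -/
noncomputable def orig (k : Type) [Field k] (n : ℕ) : Ideal (MvPolynomial (Fin n) k) :=
  Ideal.span (Set.range X)

theorem X_mem_orig (i : Fin n) : (X i : MvPolynomial (Fin n) k) ∈ orig k n :=
  Ideal.subset_span ⟨i, rfl⟩

theorem sub_const_mem (f : MvPolynomial (Fin n) k) : f - C (constantCoeff f) ∈ orig k n := by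
  induction f using MvPolynomial.induction_on with
  | C a => rw [constantCoeff_C, sub_self]; exact zero_mem _
  | add p q hp hq =>
    rw [map_add, map_add]
    have : p + q - (C (constantCoeff p) + C (constantCoeff q)) =
      (p - C (constantCoeff p)) + (q - C (constantCoeff q)) := by ring
    rw [this]
    exact add_mem hp hq
  | mul_X p i hp =>
    rw [map_mul, constantCoeff_X, mul_zero, map_zero, sub_zero]
    exact Ideal.mul_mem_left _ _ (X_mem_orig i)

theorem sub_lin_mem (f : MvPolynomial (Fin n) k) :
    f - C (constantCoeff f) - ∑ i, C (f.coeff (Finsupp.single i 1)) * X i ∈ orig k n ^ 2 := by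
  classical
  induction f using MvPolynomial.induction_on with
  | C a =>
    have h1 : ∀ i : Fin n, (C a : MvPolynomial (Fin n) k).coeff (Finsupp.single i 1) = 0 := by
      intro i
      rw [coeff_C, if_neg]
      intro h
      have := DFunLike.congr_fun h i
      simp at this
    rw [constantCoeff_C, sub_self, zero_sub, Finset.sum_eq_zero, neg_zero]
    · exact zero_mem _
    · intro i _
      rw [h1, map_zero, zero_mul]
  | add p q hp hq =>
    have h1 : ∑ i, C ((p + q).coeff (Finsupp.single i 1)) * X i =
        ∑ i, C (p.coeff (Finsupp.single i 1)) * (X i : MvPolynomial (Fin n) k) +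
          ∑ i, C (q.coeff (Finsupp.single i 1)) * X i := by
      rw [← Finset.sum_add_distrib]
      refine Finset.sum_congr rfl fun i _ => ?_
      rw [coeff_add, map_add, add_mul]
    rw [h1, map_add, map_add]
    have h2 := add_mem hp hq
    refine Eq.mp (congrArg (fun z => z ∈ _) ?_) h2
    ring
  | mul_X p j hp =>
    have h1 : ∀ i : Fin n, (p * X j).coeff (Finsupp.single i 1) =
        if i = j then constantCoeff p else 0 := by
      intro i
      by_cases hij : i = j
      · subst hij
        rw [if_pos rfl]
        have h2 : (Finsupp.single i 1 : Fin n →₀ ℕ) = 0 + Finsupp.single i 1 := (zero_add _).symm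
        rw [h2, coeff_mul_X]
        rfl
      · rw [if_neg hij, coeff_mul_X', if_neg]
        rw [Finsupp.mem_support_iff, Finsupp.single_apply, if_neg hij]
        simp
    have h2 : ∑ i, C ((p * X j).coeff (Finsupp.single i 1)) * X i =
        C (constantCoeff p) * (X j : MvPolynomial (Fin n) k) := by
      rw [Finset.sum_eq_single j]
      · rw [h1, if_pos rfl]
      · intro i _ hi
        rw [h1, if_neg hi, map_zero, zero_mul]
      · intro h; exact absurd (Finset.mem_univ j) h
    rw [h2, map_mul, constantCoeff_X, mul_zero, map_zero, sub_zero, ← sub_mul, pow_two]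
    exact Ideal.mul_mem_mul (sub_const_mem p) (X_mem_orig j)

theorem map_orig (θ : MvPolynomial (Fin N) k →ₐ[k] MvPolynomial (Fin n) k)
    (h : ∀ i, θ (X i) ∈ orig k n) (m : ℕ) (f : MvPolynomial (Fin N) k) (hf : f ∈ orig k N ^ m) :
    θ f ∈ orig k n ^ m := by
  have h1 : (orig k N).map (θ : MvPolynomial (Fin N) k →+* MvPolynomial (Fin n) k) ≤ orig k n := by
    rw [orig, Ideal.map_span, Ideal.span_le]
    rintro _ ⟨_, ⟨i, rfl⟩, rfl⟩
    exact h i
  have h2 := Ideal.mem_map_of_mem (θ : MvPolynomial (Fin N) k →+* MvPolynomial (Fin n) k) hf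
  rw [Ideal.map_pow] at h2
  exact Ideal.pow_right_mono h1 m h2

/-- a substitution which is the identity to the first order is injective -/
theorem injective_of_orig (θ : MvPolynomial (Fin n) k →ₐ[k] MvPolynomial (Fin n) k)
    (h : ∀ i, θ (X i) - X i ∈ orig k n ^ 2) : Function.Injective θ := by
  have hθ : ∀ i, θ (X i) ∈ orig k n := by
    intro i
    have h1 : θ (X i) = (θ (X i) - X i) + X i := by ring
    rw [h1]
    refine add_mem ?_ (X_mem_orig i)
    have := h i
    rw [pow_two] at this
    exact Ideal.mul_le_right this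
  -- first order
  have h0 : ∀ f, θ f - f ∈ orig k n := by
    intro f
    induction f using MvPolynomial.induction_on with
    | C a =>
      have : θ (C a) = C a := MvPolynomial.algHom_C _ _
      rw [this, sub_self]; exact zero_mem _
    | add p q hp hq =>
      have : θ (p + q) - (p + q) = (θ p - p) + (θ q - q) := by rw [map_add]; ring
      rw [this]; exact add_mem hp hq
    | mul_X p i hp =>
      have : θ (p * X i) - p * X i = (θ p - p) * θ (X i) + p * (θ (X i) - X i) := by
        rw [map_mul]; ring
      rw [this]
      refine add_mem (Ideal.mul_mem_left _ _ (hθ i)) (Ideal.mul_mem_left _ _ ?_)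
      exact sub_mem (hθ i) (X_mem_orig i)
  have hone : ∀ f ∈ orig k n, θ f - f ∈ orig k n ^ 2 := by
    intro f hf
    refine Submodule.span_induction (p := fun f _ => θ f - f ∈ orig k n ^ 2) ?_ ?_ ?_ ?_ hf
    · rintro _ ⟨i, rfl⟩
      exact h i
    · rw [map_zero, sub_zero]; exact zero_mem _
    · intro p q _ _ hp hq
      have : θ (p + q) - (p + q) = (θ p - p) + (θ q - q) := by rw [map_add]; ring
      rw [this]; exact add_mem hp hq
    · intro a p hp hp'
      have hθp : θ p ∈ orig k n := by
        have := map_orig θ hθ 1 p (by rw [pow_one]; exact hp)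
        rwa [pow_one] at this
      have : θ (a • p) - a • p = (θ a - a) * θ p + a * (θ p - p) := by
        rw [smul_eq_mul, map_mul]; ring
      rw [this, pow_two]
      refine add_mem (Ideal.mul_mem_mul (h0 a) hθp) (Ideal.mul_mem_left _ _ ?_)
      rwa [← pow_two]
  have hd : ∀ (d : ℕ), ∀ f ∈ orig k n ^ d, θ f - f ∈ orig k n ^ (d + 1) := by
    intro d
    induction d with
    | zero => intro f _; rw [zero_add, pow_one]; exact h0 f
    | succ d ih =>
      intro f hf
      rw [pow_succ] at hf
      refine Submodule.mul_induction_on hf (fun a ha b hb => ?_) (fun p q hp hq => ?_)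
      · have : θ (a * b) - a * b = θ a * (θ b - b) + (θ a - a) * b := by rw [map_mul]; ring
        rw [this]
        refine add_mem ?_ ?_
        · have h1 := Ideal.mul_mem_mul (map_orig θ hθ d a ha) (hone b hb)
          rw [← pow_add] at h1
          exact h1
        · have h1 := Ideal.mul_mem_mul (ih a ha) hb
          rw [← pow_succ] at h1
          exact h1
      · have : θ (p + q) - (p + q) = (θ p - p) + (θ q - q) := by rw [map_add]; ring
        rw [this]; exact add_mem hp hq
  rw [injective_iff_map_eq_zero]
  intro f hf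
  have hall : ∀ d : ℕ, f ∈ orig k n ^ d := by
    intro d
    induction d with
    | zero => rw [pow_zero, Ideal.one_eq_top]; trivial
    | succ d ih =>
      have h1 := hd d f ih
      rw [hf, zero_sub, neg_mem_iff] at h1
      exact h1
  have hne : orig k n ≠ ⊤ := by
    intro htop
    have h1 : (1 : MvPolynomial (Fin n) k) ∈ orig k n := by rw [htop]; trivial
    have h2 : orig k n ≤ RingHom.ker (constantCoeff : MvPolynomial (Fin n) k →+* k) := by
      rw [orig, Ideal.span_le]
      rintro _ ⟨i, rfl⟩
      exact constantCoeff_X _ i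
    have h3 := h2 h1
    rw [RingHom.mem_ker, map_one] at h3
    exact one_ne_zero h3
  have h2 : f ∈ (⨅ d : ℕ, orig k n ^ d : Ideal (MvPolynomial (Fin n) k)) := by
    rw [Submodule.mem_iInf]
    exact hall
  rw [Ideal.iInf_pow_eq_bot_of_isDomain _ hne] at h2
  exact h2

theorem adjoin_shift {B : Type} [CommRing B] [Algebra k B] (x : Fin n → B) (c : Fin n → k) (a : B)
    (ha : a ∈ Algebra.adjoin k (Set.range x)) :
    ∃ F : MvPolynomial (Fin n) k, aeval (fun j => x j - algebraMap k B (c j)) F = a := by
  rw [Algebra.adjoin_range_eq_range_aeval, AlgHom.mem_range] at ha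
  obtain ⟨F, hF⟩ := ha
  refine ⟨aeval (fun j => X j + C (c j)) F, ?_⟩
  have h1 : (aeval (fun j => x j - algebraMap k B (c j)) :
      MvPolynomial (Fin n) k →ₐ[k] B).comp (aeval fun j => X j + C (c j)) = aeval x := by
    apply MvPolynomial.algHom_ext
    intro j
    rw [AlgHom.comp_apply, aeval_X, aeval_X, map_add, aeval_X, aeval_C, sub_add_cancel]
  rw [← hF, ← h1, AlgHom.comp_apply]

/-- a submersive family of points of the affine variety with the ring of functions `B` embeds its
function field in a field of rational functions -/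
theorem exists_injective {B : Type} [CommRing B] [IsDomain B] [Algebra k B]
    (ψ : B →ₐ[k] MvPolynomial (Fin N) k) (x : Fin n → B)
    (halg : ∀ b : B, IsAlgebraic (Algebra.adjoin k (Set.range x)) b)
    (hlin : LinearIndependent k fun (j : Fin n) (i : Fin N) =>
      (ψ (x j)).coeff (Finsupp.single i 1)) :
    ∃ χ : B →ₐ[k] MvPolynomial (Fin n) k, Function.Injective χ := by
  classical
  set M : Fin n → Fin N → k := fun j i => (ψ (x j)).coeff (Finsupp.single i 1) with hM
  obtain ⟨g, hg⟩ := LinearMap.exists_leftInverse_of_injective (Fintype.linearCombination k M)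
    (LinearMap.ker_eq_bot.2 (linearIndependent_iff_injective_fintypeLinearCombination.1 hlin))
  have hg' : ∀ j, g (M j) = Pi.single j 1 := by
    intro j
    have h1 := LinearMap.congr_fun hg (Pi.single j 1)
    rw [LinearMap.comp_apply, Fintype.linearCombination_apply_single, one_smul] at h1
    exact h1
  have hgM : ∀ j l, ∑ i, M j i * g (Pi.single i 1) l = if l = j then 1 else 0 := by
    intro j l
    have h1 := hg' j
    have h2 : M j = ∑ i, M j i • (Pi.single i 1 : Fin N → k) := by
      ext i
      simp [Finset.sum_apply, Pi.single_apply]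
    rw [h2, map_sum] at h1
    have h3 := congrFun h1 l
    rw [Finset.sum_apply] at h3
    simp only [map_smul, Pi.smul_apply, smul_eq_mul] at h3
    rw [h3, Pi.single_apply]
  let ρ : MvPolynomial (Fin N) k →ₐ[k] MvPolynomial (Fin n) k :=
    aeval fun i => ∑ l, C (g (Pi.single i 1) l) * X l
  have hρX : ∀ i, ρ (X i) = ∑ l, C (g (Pi.single i 1) l) * X l := fun i => aeval_X _ _
  have hρo : ∀ i, ρ (X i) ∈ orig k n := by
    intro i
    rw [hρX]
    exact sum_mem fun l _ => Ideal.mul_mem_left _ _ (X_mem_orig l)
  have hρ : ∀ j, ρ (ψ (x j)) - C (constantCoeff (ψ (x j))) - X j ∈ orig k n ^ 2 := by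
    intro j
    have h1 := map_orig ρ hρo 2 _ (sub_lin_mem (ψ (x j)))
    have h2 : ρ (∑ i, C ((ψ (x j)).coeff (Finsupp.single i 1)) * X i) = X j := by
      rw [map_sum]
      have h3 : ∀ i, ρ (C ((ψ (x j)).coeff (Finsupp.single i 1)) * X i) =
          ∑ l, C (M j i * g (Pi.single i 1) l) * X l := by
        intro i
        rw [map_mul, hρX, MvPolynomial.algHom_C, Finset.mul_sum]
        refine Finset.sum_congr rfl fun l _ => ?_
        rw [C_mul, ← mul_assoc]
        rfl
      rw [Finset.sum_congr rfl fun i _ => h3 i, Finset.sum_comm]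
      have h4 : ∀ l, ∑ i, C (M j i * g (Pi.single i 1) l) * (X l : MvPolynomial (Fin n) k) =
          C (if l = j then 1 else 0) * X l := by
        intro l
        rw [← Finset.sum_mul, ← map_sum, hgM]
      rw [Finset.sum_congr rfl fun l _ => h4 l, Finset.sum_eq_single j]
      · rw [if_pos rfl, map_one, one_mul]
      · intro l _ hl
        rw [if_neg hl, map_zero, zero_mul]
      · intro h; exact absurd (Finset.mem_univ j) h
    rw [map_sub, map_sub, h2, MvPolynomial.algHom_C] at h1
    exact h1
  let χ : B →ₐ[k] MvPolynomial (Fin n) k := ρ.comp ψ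
  let c : Fin n → k := fun j => constantCoeff (ψ (x j))
  let θ : MvPolynomial (Fin n) k →ₐ[k] MvPolynomial (Fin n) k :=
    aeval fun j => χ (x j) - C (c j)
  have hθ : Function.Injective θ := by
    refine injective_of_orig θ fun i => ?_
    have h1 : θ (X i) = χ (x i) - C (c i) := aeval_X _ _
    rw [h1]
    exact hρ i
  -- the polynomials in `x`
  have hcomp : ∀ F : MvPolynomial (Fin n) k,
      χ (aeval (fun j => x j - algebraMap k B (c j)) F) = θ F := by
    intro F
    have h1 : χ.comp (aeval (fun j => x j - algebraMap k B (c j))) = θ := by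
      apply MvPolynomial.algHom_ext
      intro j
      have h2 : θ (X j) = χ (x j) - C (c j) := aeval_X _ _
      rw [AlgHom.comp_apply, aeval_X, map_sub, χ.commutes, h2]
      rfl
    exact AlgHom.congr_fun h1 F
  have hadj : ∀ a ∈ Algebra.adjoin k (Set.range x), ∃ F : MvPolynomial (Fin n) k,
      aeval (fun j => x j - algebraMap k B (c j)) F = a := fun a ha => adjoin_shift x c a ha
  refine ⟨χ, ?_⟩
  rw [injective_iff_map_eq_zero]
  intro b hb
  by_contra hb0
  obtain ⟨r, hr, hr'⟩ := (halg b).exists_nonzero_dvd (mem_nonZeroDivisors_of_ne_zero hb0)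
  obtain ⟨d, hd⟩ := hr'
  have h1 : χ (r : B) = 0 := by
    have h2 : (r : B) = b * d := hd
    rw [h2, map_mul, hb, zero_mul]
  obtain ⟨F, hF⟩ := hadj r r.2
  rw [← hF, hcomp] at h1
  have h2 : F = 0 := hθ (by rw [h1, map_zero])
  apply hr
  apply Subtype.ext
  rw [← hF, h2, map_zero]
  rfl

end

end Pool.Agent.Helper44q.S
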